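import Pool.Agent.Q262.Circ.I322

/-!
The MC number `322` has two MC-circles, with centres `(9/34, 9/34)` and `(1/2, 3/34)`, which are
not images of each other under a lattice symmetry, and neither are the two MC-sets.
-/

set_option autoImplicit false
set_option maxRecDepth 100000

namespace Pool.Agent.Results.MP_ab672e_co.TwoMCCircles

open Q262.Circ

/-- squared Euclidean distance in the plane -/
def dist2 (p q : ℝ × ℝ) : ℝ := (p.1 - q.1) ^ 2 + (p.2 - q.2) ^ 2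

/-- the lattice `ℤ²` in the plane -/
def lat : Set (ℝ × ℝ) := {p | ∃ a b : ℤ, p = ((a : ℝ), (b : ℝ))}

/-- A lattice symmetry: an isometry `g` of the plane with `g(ℤ²) = ℤ²`. -/
def LatticeSymmetry (g : ℝ × ℝ → ℝ × ℝ) : Prop :=
  (∀ p q : ℝ × ℝ, dist2 (g p) (g q) = dist2 p q) ∧ g '' lat = lat

/-- the circle with centre `(x, y)` and radius `r` as a set of points -/
def circle (x y r : ℝ) : Set (ℝ × ℝ) := {p | dist2 p (x, y) = r ^ 2}

/-- the set of lattice points enclosed by the circle with centre `(x, y)` and radius `r` -/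
def enclosedSet (x y r : ℝ) : Set (ℝ × ℝ) := {p | p ∈ lat ∧ dist2 p (x, y) < r ^ 2}

theorem coords : ((I322.X1 : ℝ) / I322.D = 9 / 34) ∧ ((I322.Y1 : ℝ) / I322.D = 9 / 34) ∧
    ((I322.X2 : ℝ) / I322.D = 1 / 2) ∧ ((I322.Y2 : ℝ) / I322.D = 3 / 34) ∧
    ((I322.N : ℝ) / (I322.D : ℝ) ^ 2 = 60125 / 578) := by
  unfold I322.X1 I322.X2 I322.D I322.Y1 I322.Y2 I322.N
  norm_num

theorem isMax1 : MCCircle 322 (9 / 34) (9 / 34) (Real.sqrt (60125 / 578)) := by
  have h := I322.isMax1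
  rwa [coords.1, coords.2.1, coords.2.2.2.2] at h

theorem isMax2 : MCCircle 322 (1 / 2) (3 / 34) (Real.sqrt (60125 / 578)) := by
  have h := I322.isMax2
  rwa [coords.2.2.1, coords.2.2.2.1, coords.2.2.2.2] at h

/-- The two circles are not equivalent. -/
theorem circles {g : ℝ × ℝ → ℝ × ℝ} (hg : LatticeSymmetry g) :
    g '' circle (9 / 34) (9 / 34) (Real.sqrt (60125 / 578)) ≠
      circle (1 / 2) (3 / 34) (Real.sqrt (60125 / 578)) := by
  intro h
  obtain ⟨hiso, hlat⟩ := hg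
  set r : ℝ := Real.sqrt (60125 / 578) with hr
  have hr2 : r ^ 2 = 60125 / 578 := Real.sq_sqrt (by norm_num)
  have hr0 : 0 < r := Real.sqrt_pos.2 (by norm_num)
  have key : ∀ p : ℝ × ℝ, p ∈ circle (1 / 2) (3 / 34) r → dist2 p (g (9 / 34, 9 / 34)) = r ^ 2 := by
    intro p hp
    rw [← h] at hp
    obtain ⟨q, hq, rfl⟩ := hp
    rw [hiso]
    exact hq
  have k1 := key (1 / 2 + r, 3 / 34) (by unfold circle dist2; rw [Set.mem_ofPred_eq]; ring)
  have k2 := key (1 / 2 - r, 3 / 34) (by unfold circle dist2; rw [Set.mem_ofPred_eq]; ring)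
  have k3 := key (1 / 2, 3 / 34 + r) (by unfold circle dist2; rw [Set.mem_ofPred_eq]; ring)
  have k4 := key (1 / 2, 3 / 34 - r) (by unfold circle dist2; rw [Set.mem_ofPred_eq]; ring)
  set c := g (9 / 34, 9 / 34) with hc
  unfold dist2 at k1 k2 k3 k4
  simp only at k1 k2 k3 k4
  have c1 : c.1 = 1 / 2 := by
    have : r * (1 / 2 - c.1) = 0 := by nlinarith
    rcases mul_eq_zero.1 this with h1 | h1
    · exact absurd h1 hr0.ne'
    · linarith
  have c2 : c.2 = 3 / 34 := by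
    have : r * (3 / 34 - c.2) = 0 := by nlinarith
    rcases mul_eq_zero.1 this with h1 | h1
    · exact absurd h1 hr0.ne'
    · linarith
  have h0 : g (0, 0) ∈ lat := by
    rw [← hlat]
    exact ⟨(0, 0), ⟨0, 0, by simp⟩, rfl⟩
  obtain ⟨a, b, hab⟩ := h0
  have h1 := hiso (0, 0) (9 / 34, 9 / 34)
  rw [hab, ← hc] at h1
  unfold dist2 at h1
  simp only at h1
  rw [c1, c2] at h1
  have h2 : ((a : ℝ) - 1 / 2) ^ 2 < 1 / 4 := by nlinarith [sq_nonneg ((b : ℝ) - 3 / 34)]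
  have h3 : (a : ℝ) ^ 2 < a := by nlinarith
  have h4 : a ^ 2 < a := by exact_mod_cast h3
  rcases lt_trichotomy a 0 with h5 | h5 | h5
  · nlinarith
  · rw [h5] at h4; norm_num at h4
  · nlinarith

/-- A finite set of lattice points. -/
noncomputable def fin (X Y N : ℤ) : Finset (ℤ × ℤ) :=
  ((Finset.Icc (-12 : ℤ) 12) ×ˢ (Finset.Icc (-12 : ℤ) 12)).filter fun p =>
    (34 * p.1 - X) ^ 2 + (34 * p.2 - Y) ^ 2 < N

/-- moments as double sums -/
theorem moment (X Y N : ℤ) (F : ℤ → ℤ → ℤ) : ∑ p ∈ fin X Y N, F p.1 p.2 =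
    ∑ i ∈ Finset.Icc (-12 : ℤ) 12, ∑ j ∈ Finset.Icc (-12 : ℤ) 12,
      if (34 * i - X) ^ 2 + (34 * j - Y) ^ 2 < N then F i j else 0 := by
  rw [fin, Finset.sum_filter, Finset.sum_product]

theorem mem_fin {X Y : ℤ} {x y : ℝ} (hx : x = X / 34) (hy : y = Y / 34) (hX0 : 0 ≤ X)
    (hX : X ≤ 17) (hY0 : 0 ≤ Y) (hY : Y ≤ 17) (p : ℤ × ℤ) :
    dist2 ((p.1 : ℝ), (p.2 : ℝ)) (x, y) < (Real.sqrt (60125 / 578)) ^ 2 ↔
      p ∈ fin X Y 120250 := by
  rw [Real.sq_sqrt (by norm_num), fin, Finset.mem_filter, Finset.mem_product, Finset.mem_Icc,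
    Finset.mem_Icc]
  have h1 : dist2 ((p.1 : ℝ), (p.2 : ℝ)) (x, y) < 60125 / 578 ↔
      (34 * p.1 - X) ^ 2 + (34 * p.2 - Y) ^ 2 < 120250 := by
    unfold dist2
    simp only
    rw [hx, hy, lt_div_iff₀ (by norm_num)]
    have e : (((p.1 : ℝ) - X / 34) ^ 2 + ((p.2 : ℝ) - Y / 34) ^ 2) * 578 =
      (((34 * p.1 - X) ^ 2 + (34 * p.2 - Y) ^ 2 : ℤ) : ℝ) / 2 := by
      push_cast
      ring
    rw [e, div_lt_iff₀ (by norm_num)]
    constructor
    · intro h
      have : (((34 * p.1 - X) ^ 2 + (34 * p.2 - Y) ^ 2 : ℤ) : ℝ) < ((120250 : ℤ) : ℝ) := by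
        push_cast at h ⊢
        linarith
      exact_mod_cast this
    · intro h
      have : (((34 * p.1 - X) ^ 2 + (34 * p.2 - Y) ^ 2 : ℤ) : ℝ) < ((120250 : ℤ) : ℝ) := by
        exact_mod_cast h
      push_cast at this ⊢
      linarith
  rw [h1]
  constructor
  · intro h
    refine ⟨⟨⟨?_, ?_⟩, ?_, ?_⟩, h⟩
    · by_contra hc; push Not at hc; nlinarith [sq_nonneg (34 * p.2 - Y)]
    · by_contra hc; push Not at hc; nlinarith [sq_nonneg (34 * p.2 - Y)]
    · by_contra hc; push Not at hc; nlinarith [sq_nonneg (34 * p.1 - X)]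
    · by_contra hc; push Not at hc; nlinarith [sq_nonneg (34 * p.1 - X)]
  · exact fun h => h.2

/-- sum of all squared distances -/
def energy (A : Finset (ℤ × ℤ)) : ℤ :=
  ∑ p ∈ A, ∑ q ∈ A, ((p.1 - q.1) ^ 2 + (p.2 - q.2) ^ 2)

theorem energy_eq (A : Finset (ℤ × ℤ)) : energy A =
    2 * (∑ p ∈ A, (1 : ℤ)) * (∑ p ∈ A, (p.1 ^ 2 + p.2 ^ 2)) -
      2 * ((∑ p ∈ A, p.1) ^ 2 + (∑ p ∈ A, p.2) ^ 2) := by
  have h : ∀ a b c d : ℤ, 2 * a * b - 2 * (c ^ 2 + d ^ 2) =
      b * a + a * b - (c * c + c * c) - (d * d + d * d) := by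
    intro a b c d; ring
  rw [h]
  unfold energy
  simp only [Finset.sum_mul_sum, ← Finset.sum_add_distrib, ← Finset.sum_sub_distrib]
  refine Finset.sum_congr rfl fun p _ => Finset.sum_congr rfl fun q _ => ?_
  ring

theorem sums1 : (∑ _p ∈ fin 9 9 120250, (1 : ℤ) = 322) ∧
    (∑ p ∈ fin 9 9 120250, (p.1 ^ 2 + p.2 ^ 2) = 16570) ∧
    (∑ p ∈ fin 9 9 120250, p.1 = 111) ∧ (∑ p ∈ fin 9 9 120250, p.2 = 111) := by
  refine ⟨?_, ?_, ?_, ?_⟩
  · rw [moment 9 9 120250 (fun _ _ => 1)]; decide +kernel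
  · rw [moment 9 9 120250 (fun x y => x ^ 2 + y ^ 2)]; decide +kernel
  · rw [moment 9 9 120250 (fun x _ => x)]; decide +kernel
  · rw [moment 9 9 120250 (fun _ y => y)]; decide +kernel

theorem sums2 : (∑ _p ∈ fin 17 3 120250, (1 : ℤ) = 322) ∧
    (∑ p ∈ fin 17 3 120250, (p.1 ^ 2 + p.2 ^ 2) = 16581) ∧
    (∑ p ∈ fin 17 3 120250, p.1 = 161) ∧ (∑ p ∈ fin 17 3 120250, p.2 = 20) := by
  refine ⟨?_, ?_, ?_, ?_⟩
  · rw [moment 17 3 120250 (fun _ _ => 1)]; decide +kernel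
  · rw [moment 17 3 120250 (fun x y => x ^ 2 + y ^ 2)]; decide +kernel
  · rw [moment 17 3 120250 (fun x _ => x)]; decide +kernel
  · rw [moment 17 3 120250 (fun _ y => y)]; decide +kernel

/-- The two MC-sets are not equivalent. -/
theorem sets {g : ℝ × ℝ → ℝ × ℝ} (hg : LatticeSymmetry g) :
    g '' enclosedSet (9 / 34) (9 / 34) (Real.sqrt (60125 / 578)) ≠
      enclosedSet (1 / 2) (3 / 34) (Real.sqrt (60125 / 578)) := by
  intro h
  obtain ⟨hiso, hlat⟩ := hg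
  have hf : ∀ p : ℤ × ℤ, ∃ q : ℤ × ℤ, g ((p.1 : ℝ), (p.2 : ℝ)) = ((q.1 : ℝ), (q.2 : ℝ)) := by
    intro p
    have : g ((p.1 : ℝ), (p.2 : ℝ)) ∈ lat := by
      rw [← hlat]
      exact ⟨_, ⟨p.1, p.2, rfl⟩, rfl⟩
    obtain ⟨a, b, hab⟩ := this
    exact ⟨(a, b), hab⟩
  choose f hf using hf
  have hd : ∀ p q : ℤ × ℤ, ((f p).1 - (f q).1) ^ 2 + ((f p).2 - (f q).2) ^ 2 =
      (p.1 - q.1) ^ 2 + (p.2 - q.2) ^ 2 := by
    intro p q
    have h1 := hiso ((p.1 : ℝ), (p.2 : ℝ)) ((q.1 : ℝ), (q.2 : ℝ))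
    rw [hf, hf] at h1
    unfold dist2 at h1
    simp only at h1
    exact_mod_cast h1
  have hinj : Function.Injective f := by
    intro p q hpq
    have h1 := hd p q
    rw [hpq, sub_self, sub_self] at h1
    have h2 : p.1 - q.1 = 0 := by nlinarith [sq_nonneg (p.1 - q.1), sq_nonneg (p.2 - q.2)]
    have h3 : p.2 - q.2 = 0 := by nlinarith [sq_nonneg (p.1 - q.1), sq_nonneg (p.2 - q.2)]
    exact Prod.ext (by omega) (by omega)
  have himg : fin 17 3 120250 = (fin 9 9 120250).image f := by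
    ext q
    rw [Finset.mem_image]
    constructor
    · intro hq
      have h1 : ((q.1 : ℝ), (q.2 : ℝ)) ∈
          enclosedSet (1 / 2) (3 / 34) (Real.sqrt (60125 / 578)) :=
        ⟨⟨q.1, q.2, rfl⟩, (mem_fin (X := 17) (Y := 3) (by norm_num) (by norm_num) (by norm_num)
          (by norm_num) (by norm_num) (by norm_num) q).2 hq⟩
      rw [← h] at h1
      obtain ⟨z, ⟨⟨a, b, rfl⟩, hz2⟩, hz3⟩ := h1
      refine ⟨(a, b), (mem_fin (X := 9) (Y := 9) (by norm_num) (by norm_num) (by norm_num)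
          (by norm_num) (by norm_num) (by norm_num) (a, b)).1 hz2, ?_⟩
      have h2 := hf (a, b)
      simp only at h2
      rw [hz3, Prod.mk.injEq] at h2
      exact Prod.ext (by exact_mod_cast h2.1.symm) (by exact_mod_cast h2.2.symm)
    · rintro ⟨p, hp, rfl⟩
      have h1 : ((p.1 : ℝ), (p.2 : ℝ)) ∈
          enclosedSet (9 / 34) (9 / 34) (Real.sqrt (60125 / 578)) :=
        ⟨⟨p.1, p.2, rfl⟩, (mem_fin (X := 9) (Y := 9) (by norm_num) (by norm_num) (by norm_num)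
          (by norm_num) (by norm_num) (by norm_num) p).2 hp⟩
      have h2 : g ((p.1 : ℝ), (p.2 : ℝ)) ∈
          enclosedSet (1 / 2) (3 / 34) (Real.sqrt (60125 / 578)) := by
        rw [← h]; exact ⟨_, h1, rfl⟩
      rw [hf] at h2
      exact (mem_fin (X := 17) (Y := 3) (by norm_num) (by norm_num) (by norm_num)
          (by norm_num) (by norm_num) (by norm_num) (f p)).1 h2.2
  have he : energy (fin 17 3 120250) = energy (fin 9 9 120250) := by
    rw [himg]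
    unfold energy
    rw [Finset.sum_image (fun _ _ _ _ h => hinj h)]
    refine Finset.sum_congr rfl fun p _ => ?_
    rw [Finset.sum_image (fun _ _ _ _ h => hinj h)]
    exact Finset.sum_congr rfl fun q _ => hd p q
  rw [energy_eq, energy_eq, sums1.1, sums1.2.1, sums1.2.2.1, sums1.2.2.2, sums2.1, sums2.2.1,
    sums2.2.2.1, sums2.2.2.2] at he
  norm_num at he

/-- The number `322` is MC, the circles with centres `(9/34, 9/34)` and `(1/2, 3/34)` and squared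
radius `60125/578` are MC-circles of `322`, they are not images of each other under a lattice
symmetry, and neither are the corresponding MC-sets. -/
theorem result : MC 322 ∧
    MCCircle 322 (9 / 34) (9 / 34) (Real.sqrt (60125 / 578)) ∧
    MCCircle 322 (1 / 2) (3 / 34) (Real.sqrt (60125 / 578)) ∧
    (∀ g : ℝ × ℝ → ℝ × ℝ, LatticeSymmetry g →
      g '' circle (9 / 34) (9 / 34) (Real.sqrt (60125 / 578)) ≠
        circle (1 / 2) (3 / 34) (Real.sqrt (60125 / 578))) ∧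
    (∀ g : ℝ × ℝ → ℝ × ℝ, LatticeSymmetry g →
      g '' enclosedSet (9 / 34) (9 / 34) (Real.sqrt (60125 / 578)) ≠
        enclosedSet (1 / 2) (3 / 34) (Real.sqrt (60125 / 578))) :=
  ⟨⟨_, _, _, isMax1⟩, isMax1, isMax2, fun _ hg => circles hg, fun _ hg => sets hg⟩

end Pool.Agent.Results.MP_ab672e_co.TwoMCCircles
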